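import Mathlib

/-!
# Strong exposure by projection normals for finitely many compact sets

Given finitely many non-empty compact sets `C i` in a real Hilbert space, there is a point `x`
such that, for every `i`, the point `x` has a unique nearest point `p i` in `C i`, and the normal
vector `x - p i` strongly exposes `p i` in `C i`.

Proof: maximise `‖∑ y i‖ ^ 2 - (∑ ‖y i‖ ^ 2) / 2` over the product of the sets and put
`x = 2 ∑ p i` for a maximiser `p`.
-/

set_option autoImplicit false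

open Set Filter Topology
open scoped InnerProductSpace

namespace Pool.Agent.Results.MP_3684f0_an.FiniteFamilies

variable {H : Type*} [NormedAddCommGroup H] [InnerProductSpace ℝ H]

/-- `p` is the unique point of `C` nearest to `x`: the metric projection `P_C(x)` is `p`. -/
def IsProj (C : Set H) (x p : H) : Prop :=
  p ∈ C ∧ ∀ y ∈ C, y ≠ p → ‖x - p‖ < ‖x - y‖

/-- the vector `v` (that is, the functional `⟪v, ·⟫`) strongly exposes `p` in `C`: it attains its
supremum over `C` at `p`, and every maximising sequence in `C` converges to `p` in norm. -/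
def StronglyExposes (v p : H) (C : Set H) : Prop :=
  p ∈ C ∧ ⟪v, p⟫_ℝ = sSup ((fun y => ⟪v, y⟫_ℝ) '' C) ∧
    ∀ u : ℕ → H, (∀ n, u n ∈ C) →
      Tendsto (fun n => ⟪v, u n⟫_ℝ) atTop (𝓝 (sSup ((fun y => ⟪v, y⟫_ℝ) '' C))) →
      Tendsto u atTop (𝓝 p)

/-- For finitely many non-empty compact subsets `C i` of a real Hilbert space there is a point `x`
whose metric projections `p i` onto the sets `C i` exist and are simultaneously strongly exposed
in `C i` by the normal vectors `x - p i`. -/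
theorem result [CompleteSpace H] {ι : Type*} [Fintype ι] (C : ι → Set H)
    (hne : ∀ i, (C i).Nonempty) (hc : ∀ i, IsCompact (C i)) :
    ∃ (x : H) (p : ι → H), ∀ i, IsProj (C i) x (p i) ∧ StronglyExposes (x - p i) (p i) (C i) := by
  classical
  let ψ : (ι → H) → ℝ := fun y => ‖∑ i, y i‖ ^ 2 - (∑ i, ‖y i‖ ^ 2) / 2
  have hψ : Continuous ψ := by fun_prop
  have hK : IsCompact (Set.univ.pi C) := isCompact_univ_pi hc
  have hKne : (Set.univ.pi C).Nonempty := Set.univ_pi_nonempty_iff.2 hne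
  obtain ⟨p, hp, hmax⟩ := hK.exists_isMaxOn hKne hψ.continuousOn
  have hpC : ∀ i, p i ∈ C i := fun i => hp i (mem_univ i)
  set S := ∑ i, p i with hS
  -- the key inequality
  have key : ∀ i, ∀ y ∈ C i,
      ⟪(2 : ℝ) • S - p i, y - p i⟫_ℝ ≤ -(‖y - p i‖ ^ 2 / 2) := by
    intro i y hy
    have hmem : Function.update p i y ∈ Set.univ.pi C := by
      intro j _
      by_cases h : j = i
      · subst h; simpa using hy
      · rw [Function.update_of_ne h]; exact hpC j
    have h1 : ψ (Function.update p i y) ≤ ψ p := hmax hmem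
    have e1 : ∑ j, Function.update p i y j = S + (y - p i) := by
      rw [Finset.sum_update_of_mem (Finset.mem_univ i), hS,
        ← Finset.add_sum_erase _ _ (Finset.mem_univ i), Finset.sdiff_singleton_eq_erase]
      abel
    have e2 : ∑ j, ‖Function.update p i y j‖ ^ 2 = ∑ j, ‖p j‖ ^ 2 + (‖y‖ ^ 2 - ‖p i‖ ^ 2) := by
      have h2 : (fun j => ‖Function.update p i y j‖ ^ 2) =
          Function.update (fun j => ‖p j‖ ^ 2) i (‖y‖ ^ 2) := by
        funext j
        by_cases h : j = i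
        · subst h; simp
        · simp [Function.update_of_ne h]
      rw [h2, Finset.sum_update_of_mem (Finset.mem_univ i),
        ← Finset.add_sum_erase _ (fun j => ‖p j‖ ^ 2) (Finset.mem_univ i),
        Finset.sdiff_singleton_eq_erase]
      ring
    have h3 : ‖S + (y - p i)‖ ^ 2 - (∑ j, ‖p j‖ ^ 2 + (‖y‖ ^ 2 - ‖p i‖ ^ 2)) / 2 ≤
        ‖S‖ ^ 2 - (∑ j, ‖p j‖ ^ 2) / 2 := by
      have : ψ (Function.update p i y) =
          ‖S + (y - p i)‖ ^ 2 - (∑ j, ‖p j‖ ^ 2 + (‖y‖ ^ 2 - ‖p i‖ ^ 2)) / 2 := by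
        show ‖∑ j, Function.update p i y j‖ ^ 2 - (∑ j, ‖Function.update p i y j‖ ^ 2) / 2 = _
        rw [e1, e2]
      rw [this] at h1
      exact h1
    rw [norm_add_sq_real] at h3
    have e3 : ‖y‖ ^ 2 = ‖p i‖ ^ 2 + 2 * ⟪p i, y - p i⟫_ℝ + ‖y - p i‖ ^ 2 := by
      rw [← norm_add_sq_real, add_sub_cancel]
    rw [inner_sub_left, inner_smul_left]
    simp only [conj_trivial]
    linarith
  refine ⟨(2 : ℝ) • S, p, fun i => ⟨⟨hpC i, ?_⟩, hpC i, ?_, ?_⟩⟩
  · intro y hy hne'
    have h1 := key i y hy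
    have h2 : 0 < ‖y - p i‖ ^ 2 := by
      have : 0 < ‖y - p i‖ := norm_pos_iff.2 (sub_ne_zero.2 hne')
      positivity
    have h3 : ‖(2 : ℝ) • S - y‖ ^ 2 = ‖(2 : ℝ) • S - p i‖ ^ 2 -
        2 * ⟪(2 : ℝ) • S - p i, y - p i⟫_ℝ + ‖y - p i‖ ^ 2 := by
      rw [← norm_sub_sq_real]
      congr 2
      abel
    have h4 : ‖(2 : ℝ) • S - p i‖ ^ 2 < ‖(2 : ℝ) • S - y‖ ^ 2 := by linarith
    exact lt_of_pow_lt_pow_left₀ 2 (norm_nonneg _) h4
  · refine le_antisymm ?_ ?_
    · refine le_csSup ?_ ⟨p i, hpC i, rfl⟩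
      exact ((hc i).image (by fun_prop)).bddAbove
    · refine csSup_le ((hne i).image _) ?_
      rintro _ ⟨y, hy, rfl⟩
      have h1 := key i y hy
      rw [inner_sub_right] at h1
      have h2 : 0 ≤ ‖y - p i‖ ^ 2 / 2 := by positivity
      show ⟪(2 : ℝ) • S - p i, y⟫_ℝ ≤ ⟪(2 : ℝ) • S - p i, p i⟫_ℝ
      linarith
  · intro u hu hlim
    have hsup : ⟪(2 : ℝ) • S - p i, p i⟫_ℝ =
        sSup ((fun y => ⟪(2 : ℝ) • S - p i, y⟫_ℝ) '' C i) := by
      refine le_antisymm ?_ ?_
      · refine le_csSup ?_ ⟨p i, hpC i, rfl⟩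
        exact ((hc i).image (by fun_prop)).bddAbove
      · refine csSup_le ((hne i).image _) ?_
        rintro _ ⟨y, hy, rfl⟩
        have h1 := key i y hy
        rw [inner_sub_right] at h1
        have h2 : 0 ≤ ‖y - p i‖ ^ 2 / 2 := by positivity
        show ⟪(2 : ℝ) • S - p i, y⟫_ℝ ≤ ⟪(2 : ℝ) • S - p i, p i⟫_ℝ
        linarith
    rw [← hsup] at hlim
    rw [tendsto_iff_norm_sub_tendsto_zero]
    have h1 : Tendsto (fun n => 2 * (⟪(2 : ℝ) • S - p i, p i⟫_ℝ -
        ⟪(2 : ℝ) • S - p i, u n⟫_ℝ)) atTop (𝓝 0) := by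
      have := (hlim.const_sub ⟪(2 : ℝ) • S - p i, p i⟫_ℝ).const_mul 2
      simpa using this
    have h2 : Tendsto (fun n => ‖u n - p i‖ ^ 2) atTop (𝓝 0) := by
      refine squeeze_zero (fun n => by positivity) (fun n => ?_) h1
      have := key i (u n) (hu n)
      rw [inner_sub_right] at this
      linarith
    have h3 := h2.sqrt
    simpa using h3

end Pool.Agent.Results.MP_3684f0_an.FiniteFamilies
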